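import Pool.Agent.Helper56.NL.Stm

set_option autoImplicit false

namespace Pool.Agent.Helper28.NL

open Matrix Polynomial

theorem div : Pool.Agent.Helper56.NL.S_DIV := by
  classical
  intro F _ r B c
  obtain ⟨L, L', D, h⟩ := Matrix.Pivot.exists_list_transvec_mul_mul_list_transvec_eq_diagonal
    (B.map (Polynomial.eval c))
  have hP : (L.map Matrix.TransvectionStruct.toMatrix).prod.det = 1 :=
    Matrix.TransvectionStruct.det_toMatrix_prod L
  have hQ : (L'.map Matrix.TransvectionStruct.toMatrix).prod.det = 1 :=
    Matrix.TransvectionStruct.det_toMatrix_prod L'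
  generalize (L.map Matrix.TransvectionStruct.toMatrix).prod = P at h hP
  generalize (L'.map Matrix.TransvectionStruct.toMatrix).prod = Q at h hQ
  have hPd : (P.map (C : F →+* F[X])).det = 1 := by
    have := (C : F →+* F[X]).map_det P
    rw [hP, map_one] at this
    exact this.symm
  have hQd : (Q.map (C : F →+* F[X])).det = 1 := by
    have := (C : F →+* F[X]).map_det Q
    rw [hQ, map_one] at this
    exact this.symm
  have h1 : (P.map (C : F →+* F[X]) * B * Q.map (C : F →+* F[X])).det = B.det := by
    rw [det_mul, det_mul, hPd, hQd, one_mul, mul_one]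
  have e1 : ∀ N : Matrix (Fin r) (Fin r) F,
      (N.map (C : F →+* F[X])).map (evalRingHom c) = N := by
    intro N
    ext i j
    simp
  have h2 : (P.map (C : F →+* F[X]) * B * Q.map (C : F →+* F[X])).map (evalRingHom c) =
      diagonal D := by
    rw [Matrix.map_mul, Matrix.map_mul, e1, e1]
    exact h
  have h3 : ∀ i j, ∃ q, (P.map (C : F →+* F[X]) * B * Q.map (C : F →+* F[X])) i j =
      (if D i = 0 then X - C c else 1) * q := by
    intro i j
    by_cases hD : D i = 0
    · rw [if_pos hD]
      have h4 : eval c ((P.map (C : F →+* F[X]) * B * Q.map (C : F →+* F[X])) i j) = 0 := by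
        have h5 := congrFun (congrFun h2 i) j
        rw [Matrix.map_apply] at h5
        have h6 : diagonal D i j = 0 := by
          rw [diagonal_apply]
          split_ifs with h7
          · exact hD
          · rfl
        rw [h6] at h5
        exact h5
      exact dvd_iff_isRoot.2 h4
    · rw [if_neg hD]
      exact ⟨_, (one_mul _).symm⟩
  choose B'' hB using h3
  have h4 : P.map (C : F →+* F[X]) * B * Q.map (C : F →+* F[X]) =
      diagonal (fun i => if D i = 0 then X - C c else 1) * Matrix.of B'' := by
    ext1 i j
    rw [hB, diagonal_mul, Matrix.of_apply]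
  have h5 : (B.map (Polynomial.eval c)).rank = Fintype.card {i // D i ≠ 0} := by
    rw [← Matrix.rank_diagonal, ← h]
    rw [Matrix.rank_mul_eq_left_of_isUnit_det _ _ (by rw [hQ]; exact isUnit_one),
      Matrix.rank_mul_eq_right_of_isUnit_det _ _ (by rw [hP]; exact isUnit_one)]
  rw [← h1, h4, det_mul, det_diagonal, h5]
  apply Dvd.dvd.mul_right
  rw [Finset.prod_ite, Finset.prod_const, Finset.prod_const_one, mul_one]
  apply pow_dvd_pow
  rw [Fintype.card_subtype]
  have h6 := Finset.card_filter_add_card_filter_not (s := (Finset.univ : Finset (Fin r))) (fun i => D i = 0)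
  rw [Finset.card_univ, Fintype.card_fin] at h6
  have h7 : (Finset.univ.filter fun i => ¬ D i = 0) = Finset.univ.filter fun i => D i ≠ 0 := rfl
  rw [h7] at h6
  omega

end Pool.Agent.Helper28.NL
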