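import Pool.Agent.Helper28.NL.DIV

set_option autoImplicit false

namespace Pool.Agent.Helper28.NL

open Matrix Polynomial Pool.Agent.Helper35.EM Pool.Agent.Helper56.SA

/-- the polynomial entries -/
noncomputable def ent {k : Type*} [Field k] {r m : ℕ} (C' M' : Matrix (Fin r) (Fin r) k)
    (Q' : Fin m → Matrix (Fin r) (Fin r) k) (e : Fin m → ℕ) : Matrix (Fin r) (Fin r) (k[X][X]) :=
  Matrix.of fun i j => C (C (C' i j)) + C (X * C (M' i j)) + ∑ t, X ^ e t * C (C (Q' t i j))

theorem drop_aux {k : Type*} [Field k] [Algebra k ℂ] [Infinite k] (y x : ℂ)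
    (hy : Transcendental k y) {r m : ℕ} (b r' : ℕ) (C' M' : Matrix (Fin r) (Fin r) k)
    (Q' : Fin m → Matrix (Fin r) (Fin r) k) (e : Fin m → ℕ)
    (hx : ((ent C' M' Q' e).map fun P => (P.map (aeval y : k[X] →ₐ[k] ℂ).toRingHom).eval x).det ≠ 0)
    (hr : ((ent C' M' Q' e).map fun P =>
      (P.map (aeval y : k[X] →ₐ[k] ℂ).toRingHom).eval (y ^ b)).rank ≤ r') :
    b * r ≤ b * r' + r := by
  classical
  set φ : k[X] →+* ℂ := (aeval y : k[X] →ₐ[k] ℂ).toRingHom with hφ
  have hinj : Function.Injective φ := transcendental_iff_injective.1 hy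
  set Δ : k[X][X] := (ent C' M' Q' e).det with hΔ
  have h1 : Δ.map φ = ((ent C' M' Q' e).map (mapRingHom φ)).det := by
    have := (mapRingHom φ).map_det (ent C' M' Q' e)
    exact this
  have h2 : (Δ.map φ).eval x ≠ 0 := by
    rw [h1]
    have := (evalRingHom x).map_det ((ent C' M' Q' e).map (mapRingHom φ))
    have h3 : eval x (((ent C' M' Q' e).map (mapRingHom φ)).det) =
      ((evalRingHom x).mapMatrix ((ent C' M' Q' e).map (mapRingHom φ))).det := this
    rw [h3]
    exact hx
  have h0 : Δ ≠ 0 := by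
    rintro h
    rw [h] at h2
    simp at h2
  have h3 := div ℂ r ((ent C' M' Q' e).map (mapRingHom φ)) (y ^ b)
  have h4 : (X - C (y ^ b)) ^ (r - r') ∣ Δ.map φ := by
    rw [h1]
    refine dvd_trans (pow_dvd_pow _ ?_) h3
    apply Nat.sub_le_sub_left
    exact hr
  have h5 : ((X - C (X ^ b) : k[X][X]) ^ (r - r')).map φ = (X - C (y ^ b)) ^ (r - r') := by
    rw [Polynomial.map_pow, Polynomial.map_sub, Polynomial.map_X, Polynomial.map_C]
    congr 3
    rw [map_pow]
    congr 1
    exact aeval_X y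
  have h6 : (X - C (X ^ b) : k[X][X]) ^ (r - r') ∣ Δ := by
    rw [← Polynomial.map_dvd_map φ hinj ((monic_X_sub_C _).pow _), h5]
    exact h4
  obtain ⟨y0, hy0⟩ : ∃ y0 : k, Δ.eval (C y0) ≠ 0 := by
    by_contra hc
    push Not at hc
    apply h0
    apply Polynomial.eq_zero_of_infinite_isRoot
    refine Set.Infinite.mono (s := Set.range (C : k → k[X])) ?_
      (Set.infinite_range_of_injective C_injective)
    rintro _ ⟨z, rfl⟩
    exact hc z
  have h7 : (C y0 - X ^ b : k[X]) ^ (r - r') ∣ Δ.eval (C y0) := by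
    have h8 := map_dvd (evalRingHom (C y0)) h6
    rw [map_pow, map_sub] at h8
    simp only [coe_evalRingHom, eval_X, eval_C] at h8
    exact h8
  have h8 : (r - r') * b ≤ (Δ.eval (C y0)).natDegree := by
    have h9 := natDegree_le_of_dvd h7 hy0
    rw [natDegree_pow, natDegree_sub, natDegree_X_pow_sub_C] at h9
    exact h9
  have h9 : (Δ.eval (C y0)).natDegree ≤ r := by
    have h10 := natDegree_det_X_add_C_le M' (C' + ∑ t, y0 ^ e t • Q' t)
    rw [Fintype.card_fin] at h10
    have h11 := (evalRingHom (C y0)).map_det (ent C' M' Q' e)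
    have h12 : eval (C y0) Δ = ((evalRingHom (C y0)).mapMatrix (ent C' M' Q' e)).det := h11
    have h13 : (evalRingHom (C y0)).mapMatrix (ent C' M' Q' e) =
        (X : k[X]) • M'.map C + (C' + ∑ t, y0 ^ e t • Q' t).map C := by
      ext1 i j
      simp only [ent, RingHom.mapMatrix_apply, Matrix.map_apply, Matrix.of_apply, coe_evalRingHom,
        eval_add, eval_C, eval_finsetSum, eval_mul, eval_pow, eval_X, Matrix.add_apply,
        Matrix.smul_apply, Matrix.sum_apply, map_add, map_sum, smul_eq_mul, map_mul, map_pow]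
      ring
    rw [h12, h13]
    exact h10
  have h10 := h8.trans h9
  rcases le_total r r' with h | h
  · have := Nat.mul_le_mul_left b h
    omega
  · obtain ⟨q, rfl⟩ := Nat.exists_eq_add_of_le h
    rw [Nat.add_sub_cancel_left] at h10
    have : b * (r' + q) = b * r' + q * b := by ring
    omega

theorem drop : Pool.Agent.Helper56.NL.S_DROP := by
  classical
  intro s y x hy hx d l m b Cm M₁ Q e hC hM hQ
  obtain ⟨f, g, h⟩ := exists_minor (Cm + y • M₁ + ∑ k, x ^ e k • Q k) rfl
  have hy' : Transcendental (clF s) y := fun ha => hy (by rw [mem_cl]; exact cl_idem ha)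
  have key : ∀ z : ℂ, (ent (k := clF s)
      (Matrix.of fun i j => (⟨Cm (f i) (g j), mem_cl.1 (hC _ _)⟩ : clF s))
      (Matrix.of fun i j => (⟨M₁ (f i) (g j), mem_cl.1 (hM _ _)⟩ : clF s))
      (fun t => Matrix.of fun i j => (⟨Q t (f i) (g j), mem_cl.1 (hQ _ _ _)⟩ : clF s)) e).map
        (fun P => (P.map (aeval y : (clF s)[X] →ₐ[clF s] ℂ).toRingHom).eval z) =
      (Cm + y • M₁ + ∑ k, z ^ e k • Q k).submatrix f g := by
    intro z
    ext i j
    have hc : ∀ c : clF s, (aeval y : (clF s)[X] →ₐ[clF s] ℂ).toRingHom (C c) = (c : ℂ) :=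
      fun c => aeval_C y c
    have hX : (aeval y : (clF s)[X] →ₐ[clF s] ℂ).toRingHom X = y := aeval_X y
    simp only [ent, Matrix.map_apply, Matrix.of_apply, Polynomial.map_add, Polynomial.map_sum,
      Polynomial.map_mul, Polynomial.map_C, Polynomial.map_pow, Polynomial.map_X, eval_add,
      eval_finsetSum, eval_mul, eval_C, eval_pow, eval_X, hc, hX, Matrix.submatrix_apply,
      Matrix.add_apply, Matrix.smul_apply, Matrix.sum_apply, smul_eq_mul, map_mul]
  have := drop_aux (k := clF s) y x hy' b (Cm + y • M₁ + ∑ k, (y ^ b) ^ e k • Q k).rank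
    (Matrix.of fun i j => (⟨Cm (f i) (g j), mem_cl.1 (hC _ _)⟩ : clF s))
    (Matrix.of fun i j => (⟨M₁ (f i) (g j), mem_cl.1 (hM _ _)⟩ : clF s))
    (fun t => Matrix.of fun i j => (⟨Q t (f i) (g j), mem_cl.1 (hQ _ _ _)⟩ : clF s)) e
    (by rw [key]; exact h) (by rw [key]; exact rank_submatrix_le _ _ _)
  exact this

end Pool.Agent.Helper28.NL
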