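import Pool.Agent.Helper56.NL.Stm2

set_option autoImplicit false

namespace Pool.Agent.Helper28.NL

open Pool.Agent.Helper35.EM Pool.Agent.Helper56.SA Pool.Agent.Helper56.EM Module Submodule Set
  Pool.Agent.Helper56.NL

theorem kk_alg {z : ℂ} : z ∈ kk ↔ IsAlgebraic ℚ z := by
  rw [kk_mem, mem_cl_empty]

/-- polynomials of degree at most one -/
theorem affine {k : Type*} [Field k] {n : ℕ} (p : MvPolynomial (Fin n) k) (hp : p.totalDegree ≤ 1) :
    ∃ (c₀ : k) (c : Fin n → k), p = MvPolynomial.C c₀ + ∑ i, MvPolynomial.C (c i) * MvPolynomial.X i := by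
  classical
  refine ⟨p.coeff 0, fun i => p.coeff (Finsupp.single i 1), ?_⟩
  ext m
  rw [MvPolynomial.coeff_add, MvPolynomial.coeff_C, MvPolynomial.coeff_sum]
  simp only [MvPolynomial.coeff_C_mul, MvPolynomial.coeff_X]
  by_cases h0 : m = 0
  · subst h0
    rw [if_pos rfl, Finset.sum_eq_zero, add_zero]
    intro i _
    rw [if_neg (by simp), mul_zero]
  · rw [if_neg (fun h => h0 h.symm), zero_add]
    by_cases h1 : ∃ j, m = Finsupp.single j 1
    · obtain ⟨j, rfl⟩ := h1
      rw [Finset.sum_eq_single j]
      · simp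
      · intro i _ hij
        rw [if_neg, mul_zero]
        intro h
        exact hij ((Finsupp.single_left_injective one_ne_zero) h)
      · intro h; exact absurd (Finset.mem_univ j) h
    · rw [Finset.sum_eq_zero]
      · apply MvPolynomial.coeff_eq_zero_of_totalDegree_lt
        refine lt_of_le_of_lt hp ?_
        by_contra hlt
        push Not at hlt
        have hne : m.support.Nonempty := Finsupp.support_nonempty_iff.2 h0
        obtain ⟨j, hj⟩ := hne
        apply h1
        refine ⟨j, ?_⟩
        have hj1 : 1 ≤ m j := Nat.one_le_iff_ne_zero.2 (Finsupp.mem_support_iff.1 hj)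
        have h2 : m j + ∑ i ∈ m.support.erase j, m i ≤ 1 := by
          rw [Finset.add_sum_erase _ _ hj]; exact hlt
        ext i
        by_cases hi : i = j
        · subst hi
          rw [Finsupp.single_eq_same]
          omega
        · rw [Finsupp.single_eq_of_ne hi]
          by_contra hi0
          have h3 : m i ≤ ∑ i ∈ m.support.erase j, m i :=
            Finset.single_le_sum (f := fun i => m i) (fun _ _ => Nat.zero_le _)
              (Finset.mem_erase.2 ⟨hi, Finsupp.mem_support_iff.2 hi0⟩)
          omega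
      · intro i _
        rw [if_neg, mul_zero]
        intro h
        exact h1 ⟨i, h.symm⟩

theorem rank_lt {N : ℕ} (A : Matrix (Fin N) (Fin N) ℂ) (h : A.det = 0) : A.rank < N := by
  obtain ⟨v, hv, hv0⟩ := Matrix.exists_mulVec_eq_zero_iff.2 h
  have h1 := LinearMap.finrank_range_add_finrank_ker A.mulVecLin
  rw [Module.finrank_fin_fun] at h1
  have h2 : 0 < finrank ℂ (LinearMap.ker A.mulVecLin) := by
    rw [Module.finrank_pos_iff]
    exact ⟨⟨⟨v, hv0⟩, 0, fun h => hv (congrArg Subtype.val h)⟩⟩
  have h3 : A.rank = finrank ℂ (LinearMap.range A.mulVecLin) := rfl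
  omega

/-- Baker's theorem with constant term -/
theorem baker {F : Pool.Agent.Helper56.NL.ExpField} (hB : IndependentInDegree F 1) {n : ℕ} {u : Fin n → ℂ}
    (hu : ∀ i, Pool.Agent.Helper56.NL.IsLog F (u i)) (hli : LinearIndependent ℚ u) :
    LinearIndependent kk (Fin.cons 1 u : Fin (n + 1) → ℂ) := by
  classical
  refine Fintype.linearIndependent_iff.2 fun g hg => ?_
  by_contra hc
  rw [Fin.sum_univ_succ] at hg
  simp only [Fin.cons_zero, Fin.cons_succ] at hg
  set p : MvPolynomial (Fin n) kk := MvPolynomial.C (g 0) +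
    ∑ i, MvPolynomial.C (g i.succ) * MvPolynomial.X i with hp
  have hp0 : p ≠ 0 := by
    intro h0
    apply hc
    have e0 : g 0 = 0 := by
      have := congrArg (MvPolynomial.eval (0 : Fin n → kk)) h0
      simpa [hp] using this
    refine Fin.cases e0 fun j => ?_
    have := congrArg (MvPolynomial.eval (Pi.single j 1 : Fin n → kk)) h0
    simpa [hp, e0, Pi.single_apply] using this
  apply hB n u hu hli (p.map (algebraMap kk ℂ))
  · intro m
    rw [MvPolynomial.coeff_map]
    exact kk_alg.1 (p.coeff m).2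
  · intro h
    apply hp0
    apply MvPolynomial.map_injective (algebraMap kk ℂ) (algebraMap kk ℂ).injective
    rw [h, map_zero]
  · have hle : (p.map (algebraMap kk ℂ)).totalDegree ≤ p.totalDegree :=
      Finset.sup_mono (MvPolynomial.support_map_subset _ _)
    refine hle.trans ?_
    refine (MvPolynomial.totalDegree_add _ _).trans (max_le ?_ ?_)
    · rw [MvPolynomial.totalDegree_C]; exact zero_le_one
    · refine MvPolynomial.totalDegree_finsetSum_le fun i _ => ?_
      refine (MvPolynomial.totalDegree_mul _ _).trans ?_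
      rw [MvPolynomial.totalDegree_C, MvPolynomial.totalDegree_X, zero_add]
  · rw [MvPolynomial.eval_map, hp]
    simp only [MvPolynomial.eval₂_add, MvPolynomial.eval₂_C, MvPolynomial.eval₂_sum,
      MvPolynomial.eval₂_mul, MvPolynomial.eval₂_X]
    rw [← hg]
    congr 1
    · rw [Algebra.smul_def, mul_one]

theorem roy (hDet : S_DET) : S_ROY := by
  classical
  intro F hB hS D n u hu hli f hf hf0 _ hev
  obtain ⟨f', rfl⟩ : ∃ f' : MvPolynomial (Fin n) kk, f'.map (algebraMap kk ℂ) = f := by
    have h : f ∈ Set.range (MvPolynomial.map (algebraMap kk ℂ)) := by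
      rw [MvPolynomial.mem_range_map_iff_coeffs_subset]
      intro c hc
      rw [SetLike.mem_coe, MvPolynomial.mem_coeffs_iff] at hc
      obtain ⟨m, -, rfl⟩ := hc
      exact ⟨⟨f.coeff m, kk_alg.2 (hf m)⟩, rfl⟩
    exact h
  have hf'0 : f' ≠ 0 := by
    rintro rfl
    exact hf0 (map_zero _)
  obtain ⟨N, A, hA, rfl⟩ := hDet kk n f'
  obtain ⟨y, hy⟩ : ∃ y : Fin n → kk, MvPolynomial.eval y A.det ≠ 0 := by
    by_contra hc
    push Not at hc
    apply hf'0
    apply MvPolynomial.funext
    intro y
    rw [hc, map_zero]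
  choose c₀ c hc using fun i j => affine (A i j) (hA i j)
  -- the linear map
  have hli' := baker hB hu hli
  obtain ⟨g, hg⟩ := LinearMap.exists_extend ((Basis.span hli').constr kk (Fin.cons 1 y : Fin (n + 1) → kk))
  have hgv : ∀ i, g ((Fin.cons 1 u : Fin (n + 1) → ℂ) i) = (Fin.cons 1 y : Fin (n + 1) → kk) i := by
    intro i
    have h1 := LinearMap.congr_fun hg (Basis.span hli' i)
    rw [Basis.constr_basis, LinearMap.comp_apply, Submodule.subtype_apply, Basis.span_apply] at h1
    exact h1
  have hg1 : g 1 = 1 := hgv 0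
  have hgu : ∀ i, g (u i) = y i := fun i => hgv i.succ
  -- the matrix
  set B : Matrix (Fin N) (Fin N) ℂ := Matrix.of fun i j => (c₀ i j : ℂ) + ∑ l, (c i j l : ℂ) * u l
    with hBdef
  have hBe : B = A.map (MvPolynomial.aeval u) := by
    ext i j
    rw [Matrix.map_apply, hc i j]
    simp [hBdef]
  have hB0 : B.det = 0 := by
    rw [hBe]
    have h1 := (MvPolynomial.aeval u : MvPolynomial (Fin n) kk →ₐ[kk] ℂ).map_det A
    rw [MvPolynomial.eval_map] at hev
    have h2 : MvPolynomial.aeval u A.det = 0 := hev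
    rw [h2] at h1
    exact h1.symm
  have hBm : B.map (fun z => (g z : ℂ)) = (A.map (MvPolynomial.eval y)).map (algebraMap kk ℂ) := by
    ext i j
    rw [Matrix.map_apply, Matrix.map_apply, Matrix.map_apply, hc i j]
    have h1 : g (B i j) = MvPolynomial.eval y (MvPolynomial.C (c₀ i j) +
        ∑ l, MvPolynomial.C (c i j l) * MvPolynomial.X l) := by
      have h2 : B i j = c₀ i j • (1 : ℂ) + ∑ l, c i j l • u l := by
        rw [hBdef, Matrix.of_apply]
        congr 1
        rw [Algebra.smul_def, mul_one]; rfl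
      rw [h2, map_add, map_smul, map_sum, hg1]
      simp [hgu]
    rw [h1]
    rfl
  have hr := hS N N B (fun z => (g z : ℂ)) (fun i j => ?_) ⟨fun a b => ?_, fun a b ha => ?_, fun a => ?_⟩
  · rw [hBm, one_mul] at hr
    have h3 : ((A.map (MvPolynomial.eval y)).map (algebraMap kk ℂ)).det ≠ 0 := by
      have h4 := (algebraMap kk ℂ).map_det (A.map (MvPolynomial.eval y))
      have h5 := (MvPolynomial.eval y).map_det A
      have h6 : (A.map (MvPolynomial.eval y)).det = MvPolynomial.eval y A.det := h5.symm
      rw [h6] at h4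
      intro h0
      apply hy
      apply (algebraMap kk ℂ).injective
      rw [h4, map_zero]
      exact h0
    rw [Matrix.rank_of_det_ne_zero h3, Fintype.card_fin] at hr
    have h7 := rank_lt B hB0
    have h8 : N ≤ B.rank := by exact_mod_cast hr
    omega
  · exact ⟨n, u, c₀ i j, fun l => c i j l, hu, kk_alg.1 (c₀ i j).2, fun l => kk_alg.1 (c i j l).2, rfl⟩
  · simp
  · have h1 : g (a * b) = (⟨a, kk_alg.2 ha⟩ : kk) * g b := by
      have : a * b = (⟨a, kk_alg.2 ha⟩ : kk) • b := rfl
      rw [this, map_smul]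
      rfl
    change ((g (a * b) : kk) : ℂ) = a * (g b : kk)
    rw [h1]
    rfl
  · exact kk_alg.1 (g a).2

end Pool.Agent.Helper28.NL
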