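import Pool.Agent.Helper28.NL.AIC

set_option autoImplicit false

namespace Pool.Agent.Helper28.NL

open Pool.Agent.Helper35.EM Pool.Agent.Helper56.SA Pool.Agent.Helper56.EM Module Submodule Set

/-- coordinates of the pairs over a rational span -/
theorem co_span {K : IntermediateField ℚ ℂ} (lam : K →ₗ[ℚ] ℂ) {ι : Type*} (z : ι → K) :
    co ((span ℚ (range z)).map (gr lam)) ⊆
      M.closure (range (fun j => (z j : ℂ)) ∪ range fun j => Complex.exp (lam (z j))) := by
  rintro a ⟨q, ⟨x, hx, rfl⟩, ha⟩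
  have key : (x : ℂ) ∈ M.closure (range (fun j => (z j : ℂ)) ∪ range fun j =>
      Complex.exp (lam (z j))) ∧ Complex.exp (lam x) ∈ M.closure (range (fun j => (z j : ℂ)) ∪
        range fun j => Complex.exp (lam (z j))) := by
    clear ha
    have hx' : x ∈ span ℚ (range z) := hx
    clear hx
    induction hx' using Submodule.span_induction with
    | mem x hx =>
      obtain ⟨j, rfl⟩ := hx
      exact ⟨cl_self (Or.inl ⟨j, rfl⟩), cl_self (Or.inr ⟨j, rfl⟩)⟩
    | zero =>
      refine ⟨cl_zero _, ?_⟩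
      rw [map_zero, Complex.exp_zero]; exact cl_one _
    | add x y _ _ hx hy =>
      refine ⟨cl_add hx.1 hy.1, ?_⟩
      rw [map_add]; exact cl_exp_add hx.2 hy.2
    | smul q x _ hx =>
      refine ⟨cl_smul q hx.1, ?_⟩
      rw [map_smul]; exact cl_exp_smul q hx.2
  rcases ha with rfl | rfl
  · exact key.1
  · exact key.2

theorem sch : Pool.Agent.Helper56.NL.S_SCH := by
  intro K lam D p P0 hp hB hmem hrk n z hz
  have hli : LinearIndependent ℚ z := by
    refine Fintype.linearIndependent_iff.2 fun q hq => ?_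
    have h := hz q (by rw [hq, map_zero, Complex.exp_zero]; exact cl_one _)
    exact fun i => congrFun h i
  have hfin : FiniteDimensional ℚ (span ℚ (range z)) :=
    FiniteDimensional.span_of_finite ℚ (finite_range z)
  have hVP : (span ℚ (range z)).map (gr lam) ⊓ P0 = ⊥ := by
    rw [eq_bot_iff]
    rintro q ⟨⟨x, hx, rfl⟩, hq⟩
    have h1 : Complex.exp (lam x) ∈ M.closure ∅ := hB.alg _ hq
    obtain ⟨c, rfl⟩ := (Submodule.mem_span_range_iff_exists_fun ℚ).1 hx
    have h2 := hz c h1
    rw [h2]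
    simp
  have h1 := hrk (span ℚ (range z)) hfin
  rw [hVP, finrank_bot, finrank_span_eq_card hli, Fintype.card_fin, Nat.cast_zero, add_zero] at h1
  have h2 : M.eRk ({(p : ℂ)} ∪ co ((span ℚ (range z)).map (gr lam))) ≤
      M.eRk ({(p : ℂ)} ∪ (range (fun j => (z j : ℂ)) ∪ range fun j => Complex.exp (lam (z j)))) := by
    rw [← M.eRk_closure_eq ({(p : ℂ)} ∪ (range (fun j => (z j : ℂ)) ∪ range fun j =>
      Complex.exp (lam (z j))))]
    apply M.eRk_mono
    rintro x (hx | hx)
    · exact cl_self (Or.inl hx)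
    · exact cl_mono subset_union_right (co_span lam z hx)
  have h3 : M.eRk {(p : ℂ)} ≠ ⊤ := by
    refine ne_top_of_le_ne_top ?_ (M.eRk_le_encard _)
    rw [Set.encard_singleton]
    exact ENat.one_ne_top
  obtain ⟨f, -, hf, hf'⟩ := aiC2 {(p : ℂ)} _ h3 n (by rw [add_comm]; exact h1.trans h2)
  exact ⟨f, hf, hf'⟩

end Pool.Agent.Helper28.NL
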